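import Pool.Agent.H.MP_d5a48f_an.B

open Set Real Pool.Agent.H.MP_d5a48f_an

namespace Pool.Agent.Results.MP_d5a48f_an.Cellular

theorem result : ∃ (u : ℝ → E → E) (p : ℝ → E → ℝ) (Φ : ℝ → E → E),
    ContDiff ℝ ⊤ (Function.uncurry u) ∧ ContDiff ℝ ⊤ (Function.uncurry p) ∧
    (∀ t x i, u t (x + EuclideanSpace.single i (2 * π)) = u t x ∧
      p t (x + EuclideanSpace.single i (2 * π)) = p t x) ∧
    (∀ t x, deriv (u · x) t + fderiv ℝ (u t) x (u t x) + gradient (p t) x = 0) ∧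
    (∀ t x, ∑ i, fderiv ℝ (u t) x (EuclideanSpace.single i 1) i = 0) ∧
    (∃ M, ∀ t x, ‖u t x‖ ≤ M ∧ ‖fderiv ℝ (u t) x‖ ≤ M) ∧
    (∀ x, Φ 0 x = x) ∧ (∀ x t, HasDerivAt (Φ · x) (u t (Φ t x)) t) ∧
    ∀ k : ℕ, ∃ l : ℝ → E, ContDiff ℝ k l ∧ (∀ s, l s 1 = s) ∧
      (∀ t, 0 ≤ t → eVariationOn (Φ t ∘ l) (Icc 0 1) < ⊤) ∧
      ∃ c γ : ℝ, 0 < c ∧ 0 < γ ∧ ∀ t, 0 ≤ t →
        ENNReal.ofReal (c * exp (γ * t)) ≤ eVariationOn (Φ t ∘ l) (Icc 0 1) := by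
  choose Φ h0 h1 using global_sol (L := 2) U_lip U_le
  refine ⟨fun _ => U, fun _ => P, fun t x => Φ x t, U_smooth.comp contDiff_snd, ?_,
    fun t x i => ⟨?_, ?_⟩, fun t x => by simpa using euler x, fun t x => ?_,
    ⟨2, fun t x => ⟨U_le x, (U_deriv x).fderiv ▸ D_le x⟩⟩, h0, h1, fun k =>
    ⟨ll (2 * (k + 1 : ℕ) + 1), (ll_smooth _).of_le (by exact_mod_cast k.le_succ), fun s => rfl,
      fun t ht => ?_, _, _, by positivity, by positivity,
      fun t ht => growth (Φ := fun t x => Φ x t) h0 h1 (by omega) ht⟩⟩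
  · unfold P Function.uncurry
    fun_prop
  · ext j
    fin_cases i <;> fin_cases j <;> simp [U]
  · have h : ∀ a, cos (2 * (a + 2 * π)) = cos (2 * a) := fun a => by
      rw [mul_add, two_mul (2 * π), ← add_assoc, cos_add_two_pi, cos_add_two_pi]
    fin_cases i <;> simp [P, h]
  · simp [(U_deriv x).fderiv, D_apply]
  · obtain ⟨K, hK⟩ := ((ll_smooth (k + 1)).of_le (by exact_mod_cast Nat.le_add_left 1 k)).contDiffOn
      |>.exists_lipschitzOnWith one_ne_zero (convex_Icc 0 1) isCompact_Icc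
    exact lt_top_iff_ne_top.2 ((flow_lip (Φ := fun t x => Φ x t) h0 h1 ht).comp_boundedVariationOn
      (hK.comp_boundedVariationOn (g := id) (mapsTo_id _) (monotoneOn_id.boundedVariationOn (C := 1)
        fun x hx => abs_le.2 ⟨le_trans (by norm_num) hx.1, hx.2⟩)))

end Pool.Agent.Results.MP_d5a48f_an.Cellular
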